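import Pool.Agent.P8H50.NK.Stm

/-!
Project NK, package SMT: the second main theorem with the Wronskian and weights.
-/

set_option autoImplicit false

namespace Pool.Agent.P8H94.NK

open MeasureTheory Set Filter Topology Metric Real ValueDistribution MeromorphicOn
open Pool.Agent.H159R3.NV (L mero_of_diff ci_log ci_posLog ne_cod)
open Pool.Agent.Helper160.Nev (circleAverage_mono_codiscrete ci_const_mul ca_const_mul)
open Pool.Agent.P8H50.NK

lemma lf_diff {n : ℕ} {f : Fin n → ℂ → ℂ} (hf : ∀ i, Differentiable ℂ (f i)) (b : Fin n → ℂ) :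
    Differentiable ℂ (lf b f) := by
  unfold lf
  exact Differentiable.fun_sum fun i _ => (hf i).const_mul _

lemma nm_pos {n : ℕ} {f : Fin n → ℂ → ℂ} (hf : ∀ z, ∃ i, f i z ≠ 0) (z : ℂ) : 0 < nm f z := by
  obtain ⟨i, hi⟩ := hf z
  refine norm_pos_iff.2 fun h => hi ?_
  exact congrFun h i

lemma nm_ci {n : ℕ} {f : Fin n → ℂ → ℂ} (hd : ∀ i, Differentiable ℂ (f i)) (hf : ∀ z, ∃ i, f i z ≠ 0)
    (r : ℝ) : CircleIntegrable (fun z => Real.log (nm f z)) 0 r := by
  apply ContinuousOn.circleIntegrable'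
  apply ContinuousOn.log
  · have h : Continuous (fun z => fun i => f i z) := continuous_pi fun i => (hd i).continuous
    exact h.norm.continuousOn
  · intro z _
    exact (nm_pos hf z).ne'

theorem smt : S_WRN → S_WRB → S_PRX → S_LIN → S_SMT := by
  classical
  intro hWRN hWRB hPRX hLIN n q M ω hw f hf hne
  obtain ⟨C1, hC1⟩ := hLIN n q M ω hw
  obtain ⟨hWd, w0, hw0⟩ := hWRN n f hf
  have hld : ∀ j, Differentiable ℂ (lf (M j) f) := fun j => lf_diff hf.diff (M j)
  have key : ∀ b : Fin n → Fin q, ∃ (E : Set ℝ) (C : ℝ), volume E < ⊤ ∧ 0 ≤ C ∧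
      ((Matrix.of fun i => M (b i)).det ≠ 0 → ∀ r, 1 ≤ r → r ∉ E → 0 ≤ tau f r + C ∧
      Real.circleAverage (fun z => log⁺ ‖wr (fun i => lf (M (b i)) f) z / ∏ i, lf (M (b i)) f z‖) 0 r ≤
        C * (1 + log r + log (1 + C + tau f r))) := by
    intro b
    by_cases h : (Matrix.of fun i => M (b i)).det ≠ 0
    · obtain ⟨E, C, hE, hC, hr⟩ := hPRX n f hf (fun i => M (b i)) h
      exact ⟨E, C, hE, hC, fun _ => hr⟩
    · exact ⟨∅, 0, by simp, le_rfl, fun h' => absurd h' h⟩
  choose E C hE hC hprx using key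
  set B : Finset (Fin n → Fin q) := Finset.univ.filter fun b => (Matrix.of fun i => M (b i)).det ≠ 0 with hB
  have hmemB : ∀ b, b ∈ B ↔ (Matrix.of fun i => M (b i)).det ≠ 0 := fun b => by simp [hB]
  set C2 : ℝ := |C1| + ∑ b : Fin n → Fin q, |Real.log ‖(Matrix.of fun i => M (b i)).det‖| with hC2
  have hC20 : 0 ≤ C2 := by positivity
  set F : (Fin n → Fin q) → ℂ → ℝ := fun b z =>
    log⁺ ‖wr (fun i => lf (M (b i)) f) z / ∏ i, lf (M (b i)) f z‖ with hF
  -- the pointwise inequality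
  have hpt : ∀ z, (∀ j, lf (M j) f z ≠ 0) → wr f z ≠ 0 → (∃ b, b ∈ B) ∧
      Real.log ‖wr f z‖ + (∑ j, ω j - n) * Real.log (nm f z) ≤
        (∑ j, ω j * Real.log ‖lf (M j) f z‖ + ∑ b ∈ B, F b z) + C2 := by
    intro z hz hwz
    have hv : (fun i => f i z) ≠ 0 := norm_pos_iff.1 (nm_pos hf.nz z)
    obtain ⟨b, hb, hineq⟩ := hC1 (fun i => f i z) hv hz
    have hbB : b ∈ B := (hmemB b).2 hb
    refine ⟨⟨b, hbB⟩, ?_⟩
    have h1 := hWRB n f hf.diff (fun i => M (b i)) z
    set D : ℂ := (Matrix.of fun i => M (b i)).det with hD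
    have hprod : (∏ i, lf (M (b i)) f z) ≠ 0 := Finset.prod_ne_zero_iff.2 fun i _ => hz (b i)
    have hgz : wr (fun i => lf (M (b i)) f) z ≠ 0 := by
      rw [h1]; exact mul_ne_zero hb hwz
    have h2 : Real.log ‖wr (fun i => lf (M (b i)) f) z‖ = Real.log ‖D‖ + Real.log ‖wr f z‖ := by
      rw [h1, norm_mul, Real.log_mul (norm_ne_zero_iff.2 hb) (norm_ne_zero_iff.2 hwz)]
    have h3 : Real.log ‖wr (fun i => lf (M (b i)) f) z / ∏ i, lf (M (b i)) f z‖ =
        Real.log ‖wr (fun i => lf (M (b i)) f) z‖ - ∑ i, Real.log ‖lf (M (b i)) f z‖ := by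
      rw [norm_div, Real.log_div (norm_ne_zero_iff.2 hgz) (norm_ne_zero_iff.2 hprod), norm_prod,
        Real.log_prod fun i _ => norm_ne_zero_iff.2 (hz (b i))]
    have h4 : Real.log ‖wr (fun i => lf (M (b i)) f) z / ∏ i, lf (M (b i)) f z‖ ≤ F b z := by
      show _ ≤ log⁺ _
      rw [posLog_apply]
      exact le_max_right _ _
    have h5 : F b z ≤ ∑ b ∈ B, F b z :=
      Finset.single_le_sum (f := fun b => F b z) (fun b _ => Real.posLog_nonneg) hbB
    have h6 : -Real.log ‖D‖ ≤ ∑ b : Fin n → Fin q, |Real.log ‖(Matrix.of fun i => M (b i)).det‖| := by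
      refine (neg_le_abs _).trans ?_
      exact Finset.single_le_sum (f := fun b : Fin n → Fin q => |Real.log ‖(Matrix.of fun i => M (b i)).det‖|)
        (fun b _ => abs_nonneg _) (Finset.mem_univ b)
    have h7 := le_abs_self C1
    have h8 : (∑ j, ω j - n) * Real.log (nm f z) ≤ ∑ j, ω j * Real.log ‖lf (M j) f z‖ -
        ∑ l, Real.log ‖lf (M (b l)) f z‖ + C1 := hineq
    rw [hC2]
    linarith
  -- integrability
  have hev : ∀ r : ℝ, ∀ᶠ z in codiscreteWithin (sphere (0 : ℂ) |r|),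
      (∀ j, lf (M j) f z ≠ 0) ∧ wr f z ≠ 0 := by
    intro r
    have h1 : ∀ j, ∀ᶠ z in codiscreteWithin (sphere (0 : ℂ) |r|), lf (M j) f z ≠ 0 := fun j => by
      obtain ⟨w, hw⟩ := hne j
      exact ne_cod (hld j) hw r
    filter_upwards [ne_cod hWd hw0 r, eventually_all.2 h1] with z h2 h3
    exact ⟨h3, h2⟩
  obtain ⟨b0, hb0⟩ : ∃ b, b ∈ B := by
    by_contra hcon
    have h1 := circleAverage_mono_codiscrete (r := 1) one_ne_zero (f₁ := fun _ => (1 : ℝ))
      (f₂ := fun _ => (0 : ℝ)) (circleIntegrable_const _ _ _) (circleIntegrable_const _ _ _) (by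
        filter_upwards [hev 1] with z hz
        exact absurd (hpt z hz.1 hz.2).1 hcon)
    rw [circleAverage_const, circleAverage_const] at h1
    linarith
  set K : ℝ := C2 + ∑ b, C b with hK
  have hsC : 0 ≤ ∑ b, C b := Finset.sum_nonneg fun b _ => hC b
  have hK0 : 0 ≤ K := by positivity
  have hCK : ∀ b, C b ≤ K := fun b => by
    have := Finset.single_le_sum (f := C) (fun b _ => hC b) (Finset.mem_univ b)
    linarith
  refine ⟨⋃ b, E b, K, ?_, hK0, fun r hr hrE => ?_⟩
  · refine lt_of_le_of_lt (measure_iUnion_fintype_le volume E) ?_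
    exact ENNReal.sum_lt_top.2 fun b _ => hE b
  have hrE' : ∀ b, r ∉ E b := fun b h => hrE (mem_iUnion.2 ⟨b, h⟩)
  have hr0 : r ≠ 0 := by linarith
  have ht0 : 0 ≤ tau f r + K := by
    have h1 := (hprx b0 ((hmemB b0).1 hb0) r hr (hrE' b0)).1
    have := hCK b0
    linarith
  refine ⟨ht0, ?_⟩
  have i1 : CircleIntegrable (fun z => Real.log ‖wr f z‖) 0 r := ci_log (mero_of_diff hWd) r
  have i2 := nm_ci hf.diff hf.nz r
  have i2' : CircleIntegrable (fun z => (∑ j, ω j - n) * Real.log (nm f z)) 0 r := ci_const_mul _ i2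
  have i3 : ∀ j, CircleIntegrable (fun z => ω j * Real.log ‖lf (M j) f z‖) 0 r := fun j =>
    ci_const_mul _ (ci_log (mero_of_diff (hld j)) r)
  have i4 : ∀ b, CircleIntegrable (F b) 0 r := fun b => by
    have hm : Meromorphic (fun z => wr (fun i => lf (M (b i)) f) z / ∏ i, lf (M (b i)) f z) := by
      have e1 : (fun z => wr (fun i => lf (M (b i)) f) z / ∏ i, lf (M (b i)) f z) =
          (fun z => (Matrix.of fun i => M (b i)).det * wr f z) * (fun z => ∏ i, lf (M (b i)) f z)⁻¹ := by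
        funext z
        rw [hWRB n f hf.diff (fun i => M (b i)) z]
        simp [div_eq_mul_inv]
      rw [e1]
      exact (mero_of_diff (hWd.const_mul _)).mul
        (mero_of_diff (Differentiable.fun_finsetProd fun i _ => hld (b i))).inv
    exact ci_posLog hm r
  have i5 : CircleIntegrable (fun _ : ℂ => C2) 0 r := circleIntegrable_const _ _ _
  have i3s : CircleIntegrable (fun z => ∑ j, ω j * Real.log ‖lf (M j) f z‖) 0 r :=
    CircleIntegrable.fun_sum _ fun j _ => i3 j
  have i4s : CircleIntegrable (fun z => ∑ b ∈ B, F b z) 0 r := CircleIntegrable.fun_sum _ fun b _ => i4 b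
  have hint := circleAverage_mono_codiscrete hr0 (i1.add i2') ((i3s.add i4s).add i5) (by
    filter_upwards [hev r] with z hz
    exact (hpt z hz.1 hz.2).2)
  have e1 : circleAverage (fun z => Real.log ‖wr f z‖ + (∑ j, ω j - n) * Real.log (nm f z)) 0 r =
      L (wr f) r + (∑ j, ω j - n) * tau f r := by
    rw [circleAverage_fun_add i1 i2', ca_const_mul]
    rfl
  have e2 : circleAverage (fun z => (∑ j, ω j * Real.log ‖lf (M j) f z‖ + ∑ b ∈ B, F b z) + C2) 0 r =
      ∑ j, ω j * L (lf (M j) f) r + ∑ b ∈ B, circleAverage (F b) 0 r + C2 := by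
    have i34 : CircleIntegrable (fun z => ∑ j, ω j * Real.log ‖lf (M j) f z‖ + ∑ b ∈ B, F b z) 0 r :=
      i3s.add i4s
    rw [circleAverage_fun_add i34 i5, circleAverage_fun_add i3s i4s, circleAverage_const,
      circleAverage_fun_sum (fun j _ => i3 j), circleAverage_fun_sum (fun b _ => i4 b)]
    simp only [ca_const_mul]
    rfl
  have hint' : L (wr f) r + (∑ j, ω j - n) * tau f r ≤
      ∑ j, ω j * L (lf (M j) f) r + ∑ b ∈ B, circleAverage (F b) 0 r + C2 := by
    rw [← e1, ← e2]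
    exact hint
  have hlr : 0 ≤ Real.log r := Real.log_nonneg hr
  have hlt : 0 ≤ Real.log (1 + K + tau f r) := Real.log_nonneg (by linarith)
  have hprox : ∀ b ∈ B, circleAverage (F b) 0 r ≤ C b * (1 + Real.log r + Real.log (1 + K + tau f r)) := by
    intro b hb
    obtain ⟨h1, h2⟩ := hprx b ((hmemB b).1 hb) r hr (hrE' b)
    refine h2.trans (mul_le_mul_of_nonneg_left ?_ (hC b))
    have h3 := hCK b
    have h4 : Real.log (1 + C b + tau f r) ≤ Real.log (1 + K + tau f r) :=
      Real.log_le_log (by linarith) (by linarith)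
    linarith
  have hA : 1 ≤ 1 + Real.log r + Real.log (1 + K + tau f r) := by linarith
  have hsum : ∑ b ∈ B, circleAverage (F b) 0 r ≤
      (∑ b, C b) * (1 + Real.log r + Real.log (1 + K + tau f r)) := by
    refine (Finset.sum_le_sum hprox).trans ?_
    rw [← Finset.sum_mul]
    refine mul_le_mul_of_nonneg_right ?_ (by linarith)
    exact Finset.sum_le_sum_of_subset_of_nonneg (Finset.subset_univ _) fun b _ _ => hC b
  have hfin : (∑ b, C b) * (1 + Real.log r + Real.log (1 + K + tau f r)) + C2 ≤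
      K * (1 + Real.log r + Real.log (1 + K + tau f r)) := by
    have h1 : C2 ≤ C2 * (1 + Real.log r + Real.log (1 + K + tau f r)) :=
      le_mul_of_one_le_right hC20 hA
    rw [hK] at *
    nlinarith
  linarith

end Pool.Agent.P8H94.NK
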